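import Pool.Agent.N194.VS.Stm
import Pool.Agent.Y173.QA.Fr
import Pool.Agent.W73.PG.PULL
import Pool.Agent.W636.PG.Trans
import Pool.Agent.N133.TB.Bd2b

/-!
Easy addition (project VS of helper194; helper169): the generic fibre of a dominant rational map from
a variety of general type is of general type.
-/

set_option autoImplicit false
set_option linter.all false

open FF Pool.Agent.W602.GT Pool.Agent.W619.PQ Pool.Agent.W603.LV

namespace Pool.Agent.N169.VS

/-! ### Algebra -/

section alg

theorem append_indep {k S A : Type} [Field k] [CommRing S] [CommRing A] [Algebra k S] [Algebra S A]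
    [Algebra k A] [IsScalarTower k S A] [IsDomain A] [Nontrivial S] {a b : ℕ} {x : Fin a → S} {y : Fin b → A}
    (hx : AlgebraicIndependent k x) (hy : AlgebraicIndependent S y) :
    AlgebraicIndependent k (Fin.append (fun i => algebraMap S A (x i)) y : Fin (a + b) → A) := by
  have h5 := hx.sumElim_comp hy
  have h6 : (Fin.append (fun i => algebraMap S A (x i)) y : Fin (a + b) → A) =
      Sum.elim y (algebraMap S A ∘ x) ∘ (Sum.swap ∘ finSumFinEquiv.symm) := by
    funext i
    refine Fin.addCases (fun c => ?_) (fun j => ?_) i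
    · rw [Fin.append_left]
      simp only [Function.comp_apply, finSumFinEquiv_symm_apply_castAdd, Sum.swap_inl,
        Sum.elim_inr]
    · rw [Fin.append_right]
      simp only [Function.comp_apply, finSumFinEquiv_symm_apply_natAdd, Sum.swap_inr,
        Sum.elim_inl]
  rw [h6]
  exact h5.comp _ (Sum.swap_leftInverse.injective.comp (Equiv.injective _))

theorem append_indep' {k L : Type} [Field k] [Field L] [Algebra k L] (E : IntermediateField k L)
    {a b : ℕ} {x : Fin a → E} {y : Fin b → L}
    (hx : AlgebraicIndependent k x) (hy : AlgebraicIndependent E y) :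
    AlgebraicIndependent k (Fin.append (fun i => (x i : L)) y : Fin (a + b) → L) := by
  have h := append_indep (k := k) (S := E) (A := L) hx hy
  have h2 : (fun i => algebraMap E L (x i)) = fun i => (x i : L) := rfl
  rw [h2] at h
  exact h

theorem alg_of {A B L : Type} [CommRing A] [CommRing B] [Field L] [Algebra A L] [Algebra B L]
    (ι : A →+* B) (hι : Function.Injective ι) (h : (algebraMap B L).comp ι = algebraMap A L)
    (halg : Algebra.IsAlgebraic A L) : Algebra.IsAlgebraic B L := by
  refine ⟨fun x => ?_⟩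
  obtain ⟨p, hp0, hp⟩ := halg.isAlgebraic x
  refine ⟨p.map ι, (Polynomial.map_ne_zero_iff hι).2 hp0, ?_⟩
  rw [Polynomial.aeval_def, Polynomial.eval₂_map, h, ← Polynomial.aeval_def]
  exact hp

theorem alg_of_le {k F L : Type} [Field k] [Field F] [Field L] [Algebra k L] [Algebra F L]
    (S : Subalgebra k L) (T : Subalgebra F L) (hle : ∀ x ∈ S, x ∈ T)
    (halg : Algebra.IsAlgebraic S L) : Algebra.IsAlgebraic T L :=
  alg_of (A := S) (B := T)
    { toFun := fun x => ⟨x.1, hle x.1 x.2⟩
      map_one' := rfl
      map_mul' := fun _ _ => rfl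
      map_zero' := rfl
      map_add' := fun _ _ => rfl }
    (fun a b h => Subtype.ext (congrArg (fun z : T => (z : L)) h))
    (RingHom.ext fun x => rfl) halg

theorem adj_le {k F L : Type} [Field k] [Field F] [Field L] [Algebra k L] [Algebra F L] [Algebra k F]
    [IsScalarTower k F L] (X : Set L) : ∀ x ∈ Algebra.adjoin k X, x ∈ Algebra.adjoin F X := by
  intro x hx
  induction hx using Algebra.adjoin_induction with
  | mem x hx => exact Algebra.subset_adjoin hx
  | algebraMap a =>
    rw [IsScalarTower.algebraMap_apply k F L]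
    exact Subalgebra.algebraMap_mem _ _
  | add x y _ _ hx hy => exact add_mem hx hy
  | mul x y _ _ hx hy => exact mul_mem hx hy

/-- a subfamily which is a transcendence basis over a bigger field -/
theorem exists_sub0 {k F L : Type} [Field k] [Field F] [Field L] [Algebra k L] [Algebra F L]
    [Algebra k F] [IsScalarTower k F L]
    {n f : ℕ} {r : Fin n → L} (hr : IsTranscendenceBasis k r) (hf : Algebra.trdeg F L = f) :
    ∃ κ : Fin f → Fin n, AlgebraicIndependent F (fun l => r (κ l)) := by
  have halg : Algebra.IsAlgebraic (Algebra.adjoin F (Set.range r)) L :=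
    alg_of_le _ _ (adj_le (k := k) (F := F) (Set.range r)) hr.isAlgebraic
  obtain ⟨s, hs, hsb⟩ := exists_isTranscendenceBasis_subset (R := F) (A := L) (Set.range r)
  have hc := hsb.cardinalMk_eq_trdeg
  rw [hf] at hc
  have hfin : Finite s := Cardinal.mk_lt_aleph0_iff.1 (by rw [hc]; exact Cardinal.natCast_lt_aleph0)
  obtain ⟨m, ⟨e⟩⟩ := Finite.exists_equiv_fin s
  have hm : m = f := by
    have h1 := Cardinal.mk_congr e
    rw [hc, Cardinal.mk_fin] at h1
    exact_mod_cast h1.symm
  subst hm
  choose κ hκ using fun l : Fin m => hs (e.symm l).2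
  refine ⟨κ, ?_⟩
  have h2 : (fun l => r (κ l)) = (fun x : s => (x : L)) ∘ e.symm := funext hκ
  rw [h2]
  exact hsb.1.comp _ e.symm.injective

theorem exists_sub {k L : Type} [Field k] [Field L] [Algebra k L] (E : IntermediateField k L)
    {n f : ℕ} {r : Fin n → L} (hr : IsTranscendenceBasis k r) (hf : Algebra.trdeg E L = f) :
    ∃ κ : Fin f → Fin n, AlgebraicIndependent E (fun l => r (κ l)) :=
  exists_sub0 (k := k) (F := E) (L := L) hr hf

end alg

theorem exists_fin_basis' {k K : Type} [Field k] [Field K] [Algebra k K] (d : ℕ)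
    (hd : Algebra.trdeg k K = d) : ∃ y : Fin d → K, IsTranscendenceBasis k y := by
  obtain ⟨ι, z, hz⟩ := exists_isTranscendenceBasis' k K
  have h1 := hz.cardinalMk_eq_trdeg
  rw [hd] at h1
  have h2 : Finite ι := Cardinal.mk_lt_aleph0_iff.1 (by rw [h1]; exact Cardinal.natCast_lt_aleph0)
  obtain ⟨m, ⟨e⟩⟩ := Finite.exists_equiv_fin ι
  have h3 : m = d := by
    have h4 : Cardinal.mk ι = (m : Cardinal) := by
      have h5 := Cardinal.lift_mk_eq'.2 ⟨e⟩
      simpa using h5
    rw [h4] at h1
    exact_mod_cast h1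
  subst h3
  exact ⟨z ∘ e.symm, (isTranscendenceBasis_equiv e.symm).2 hz⟩

/-! ### Forms -/

section forms

theorem pluri_frame {k K : Type} [Field k] [CharZero k] [Field K] [Algebra k K] {n N : ℕ}
    {ω : (Fin n → Derivation k K K) → K} (hω : IsPluri N ω) {y : Fin n → K}
    (hy : IsTranscendenceBasis k y) {B : Fin n → Derivation k K K}
    (hB : ∀ i j, B i (y j) = if i = j then 1 else 0) (D : Fin n → Derivation k K K) :
    ω D = (Matrix.of fun i j => D i (y j)).det ^ N * ω B := by
  rw [← hω]
  congr 1
  funext i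
  exact (Pool.Agent.W73.PG.PULL.expand y hy B hB (D i)).symm

theorem det_reg {k K : Type} [Field k] [Field K] [Algebra k K] (P : Place k K) {n : ℕ}
    (M : Matrix (Fin n) (Fin n) K) (hM : ∀ i j, P.Reg (M i j)) : P.Reg M.det :=
  ge_det P M hM

theorem reg_pow {k K : Type} [Field k] [Field K] [Algebra k K] (P : Place k K) {x : K}
    (hx : P.Reg x) (N : ℕ) : P.Reg (x ^ N) := by
  induction N with
  | zero => rw [pow_zero]; exact P.reg_one
  | succ N ih => rw [pow_succ]; exact P.reg_mul ih hx

end forms

/-! ### The index change -/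

section idx

variable {d g : ℕ}

/-- the index change -/
def sg : Fin (d + (g + 1)) → Fin (d + g + 1) :=
  Fin.append (fun i : Fin d => (Fin.castAdd g i).succ) (Fin.cons 0 fun j : Fin g => (Fin.natAdd d j).succ)

theorem sg_inj : Function.Injective (sg (d := d) (g := g)) := by
  intro i j
  unfold sg
  refine Fin.addCases (fun i => ?_) (fun i => ?_) i <;> refine Fin.addCases (fun j => ?_) (fun j => ?_) j
  · simp only [Fin.append_left]
    intro h
    have := Fin.succ_injective _ h
    rw [Fin.castAdd_injective d g this]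
  · simp only [Fin.append_left, Fin.append_right]
    refine Fin.cases ?_ (fun j => ?_) j
    · simp only [Fin.cons_zero]
      intro h
      exact absurd h (Fin.succ_ne_zero _)
    · simp only [Fin.cons_succ]
      intro h
      have := congrArg Fin.val (Fin.succ_injective _ h)
      simp only [Fin.val_natAdd, Fin.val_castAdd] at this
      omega
  · simp only [Fin.append_left, Fin.append_right]
    refine Fin.cases ?_ (fun i => ?_) i
    · simp only [Fin.cons_zero]
      intro h
      exact absurd h.symm (Fin.succ_ne_zero _)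
    · simp only [Fin.cons_succ]
      intro h
      have := congrArg Fin.val (Fin.succ_injective _ h)
      simp only [Fin.val_natAdd, Fin.val_castAdd] at this
      omega
  · simp only [Fin.append_right]
    refine Fin.cases ?_ (fun i => ?_) i <;> refine Fin.cases ?_ (fun j => ?_) j
    · intro _; rfl
    · simp only [Fin.cons_zero, Fin.cons_succ]
      intro h
      exact absurd h.symm (Fin.succ_ne_zero _)
    · simp only [Fin.cons_zero, Fin.cons_succ]
      intro h
      exact absurd h (Fin.succ_ne_zero _)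
    · simp only [Fin.cons_succ]
      intro h
      have := Fin.succ_injective _ h
      rw [Fin.natAdd_injective g d this]

theorem sg_app {K : Type} (π : K) (t : Fin d → K) (u : Fin g → K) :
    (Fin.append t (Fin.cons π u : Fin (g + 1) → K) : Fin (d + (g + 1)) → K) =
      fun i => (Fin.cons π (Fin.append t u) : Fin (d + g + 1) → K) (sg i) := by
  funext i
  unfold sg
  refine Fin.addCases (fun i => ?_) (fun i => ?_) i
  · rw [Fin.append_left, Fin.append_left, Fin.cons_succ, Fin.append_left]
  · rw [Fin.append_right, Fin.append_right]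
    refine Fin.cases ?_ (fun i => ?_) i
    · rw [Fin.cons_zero, Fin.cons_zero, Fin.cons_zero]
    · rw [Fin.cons_succ, Fin.cons_succ, Fin.cons_succ, Fin.append_right]

end idx

section main

variable {L : Type} [Field L] [Algebra ℂ L] (E : IntermediateField ℂ L)

/-- a place over `E` is a place over `ℂ` -/
def rest (P : Place E L) : Place ℂ L where
  ord := P.ord
  ord_zero := P.ord_zero
  ord_mul := P.ord_mul
  ord_add := P.ord_add
  ord_const := fun {c} hc => by
    have h1 : algebraMap ℂ L c = algebraMap E L (algebraMap ℂ E c) := rfl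
    rw [h1]
    exact P.ord_const ((map_ne_zero _).2 hc)
  surj := P.surj

/-- independent residues over `ℂ` -/
theorem resInd {P : Place E L} {d g : ℕ} {t : Fin d → E} (ht : AlgebraicIndependent ℂ t)
    {u : Fin g → L} (hu : ∀ F : MvPolynomial (Fin g) E, F ≠ 0 →
      MvPolynomial.aeval u F ≠ 0 ∧ P.ord (MvPolynomial.aeval u F) = 0)
    (p : MvPolynomial (Fin (d + g)) ℂ) (hp : p ≠ 0) :
    MvPolynomial.aeval (Fin.append (fun i => (t i : L)) u : Fin (d + g) → L) p ≠ 0 ∧
      P.ord (MvPolynomial.aeval (Fin.append (fun i => (t i : L)) u : Fin (d + g) → L) p) = 0 := by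
  have h1 := append_indep ht (MvPolynomial.algebraicIndependent_X (Fin g) E)
  obtain ⟨x, hx⟩ : ∃ x : Fin (d + g) → MvPolynomial (Fin g) E,
    x = Fin.append (fun i => algebraMap E (MvPolynomial (Fin g) E) (t i)) MvPolynomial.X := ⟨_, rfl⟩
  have h1' : AlgebraicIndependent ℂ x := by rw [hx]; exact h1
  have h2 : MvPolynomial.aeval x p ≠ 0 := fun h0 => hp ((algebraicIndependent_iff.1 h1') p h0)
  have h3 : ∀ q : MvPolynomial (Fin (d + g)) ℂ, MvPolynomial.aeval u (MvPolynomial.aeval x q) =
      MvPolynomial.aeval (Fin.append (fun i => (t i : L)) u : Fin (d + g) → L) q := by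
    intro q
    induction q using MvPolynomial.induction_on with
    | C a =>
      rw [MvPolynomial.aeval_C, MvPolynomial.aeval_C,
        IsScalarTower.algebraMap_apply ℂ E (MvPolynomial (Fin g) E), MvPolynomial.algebraMap_eq,
        MvPolynomial.aeval_C]
      rfl
    | add a b ha hb => rw [map_add, map_add, map_add, ha, hb]
    | mul_X a i ha =>
      rw [map_mul, map_mul, map_mul, ha, MvPolynomial.aeval_X, MvPolynomial.aeval_X, hx]
      congr 1
      refine Fin.addCases (fun i => ?_) (fun i => ?_) i
      · rw [Fin.append_left, Fin.append_left, MvPolynomial.algebraMap_eq, MvPolynomial.aeval_C]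
        rfl
      · rw [Fin.append_right, Fin.append_right, MvPolynomial.aeval_X]
  rw [← h3]
  exact hu _ h2

theorem fin_adj {n : ℕ} (hess : Algebra.EssFiniteType ℂ L) (y : Fin n → L)
    (hy : IsTranscendenceBasis ℂ y) :
    FiniteDimensional (IntermediateField.adjoin ℂ (Set.range y)) L := by
  set K0 := IntermediateField.adjoin ℂ (Set.range y) with hK0
  have t2 : IsScalarTower ℂ K0 L := inferInstance
  have hess : Algebra.EssFiniteType K0 L := Algebra.EssFiniteType.of_comp ℂ K0 L
  have halg1 : Algebra.IsAlgebraic K0 L := hy.isAlgebraic_field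
  obtain ⟨s, hs⟩ := IntermediateField.fg_top K0 L
  have h1 : FiniteDimensional K0 (IntermediateField.adjoin K0 (s : Set L)) :=
    IntermediateField.finiteDimensional_adjoin fun x _ =>
      (halg1.isAlgebraic x).isIntegral
  rw [hs] at h1
  exact h1.equiv IntermediateField.topEquiv.toLinearEquiv

/-- regularity of the induced forms on the fibre -/
theorem reg_key (hess : Algebra.EssFiniteType ℂ L) {d g N : ℕ}
    (hn : Algebra.trdeg ℂ L = (d + (g + 1) : ℕ)) {t : Fin d → E} (ht : AlgebraicIndependent ℂ t)
    {v : Fin (g + 1) → L} {z : Fin (d + (g + 1)) → L}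
    (hz : z = Fin.append (fun i => (t i : L)) v) (hzb : IsTranscendenceBasis ℂ z)
    {G : Fin (d + (g + 1)) → Derivation ℂ L L} (hG : ∀ i j, G i (z j) = if i = j then 1 else 0)
    {ω : (Fin (d + (g + 1)) → Derivation ℂ L L) → L} (hω : IsPluri N ω)
    (hreg : ∀ P' : Place ℂ L, Divisorial (d + (g + 1)) P' → RegAt P' ω) (P : Place E L)
    (hP : Divisorial (g + 1) P) (X : Fin (g + 1) → Derivation E L L) (hX : ∀ i, DerReg P (X i)) :
    P.Reg ((Matrix.of fun i l => X i (v l)).det ^ N * ω G) := by
  classical
  obtain ⟨u, hu⟩ := hP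
  have hu' : ∀ F : MvPolynomial (Fin g) E, F ≠ 0 → MvPolynomial.aeval (R := E) (u : Fin g → L) F ≠ 0 ∧
      P.ord (MvPolynomial.aeval (R := E) (u : Fin g → L) F) = 0 := hu
  have hres : ∀ p : MvPolynomial (Fin (d + g)) ℂ, p ≠ 0 →
      MvPolynomial.aeval (Fin.append (fun i => (t i : L)) (u : Fin g → L) : Fin (d + g) → L) p ≠ 0 ∧
      (rest E P).ord (MvPolynomial.aeval
        (Fin.append (fun i => (t i : L)) (u : Fin g → L) : Fin (d + g) → L) p) = 0 :=
    fun p hp => resInd E ht hu' p hp
  have hP' : Divisorial (d + (g + 1)) (rest E P) :=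
    ⟨(Fin.append (fun i => (t i : L)) (u : Fin g → L) : Fin (d + g) → L), hres⟩
  obtain ⟨π, hπ0, hπ⟩ := P.surj
  obtain ⟨hbas, B, hB, hBP⟩ := Pool.Agent.Y173.QA.frame_of (k := ℂ) (K := L) (m := d + g) hn
    (fun y hy => fin_adj hess y hy) (rest E P) (s := π) hπ
    (y' := (Fin.append (fun i => (t i : L)) (u : Fin g → L) : Fin (d + g) → L)) hres
  obtain ⟨y2, hy2⟩ : ∃ y2 : Fin (d + (g + 1)) → L, y2 = Fin.append (fun i => (t i : L))
    (Fin.cons π (u : Fin g → L) : Fin (g + 1) → L) := ⟨_, rfl⟩
  have hy2' := hy2.trans (sg_app π (fun i => (t i : L)) (u : Fin g → L))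
  have hB2 : ∀ i j, B (sg i) (y2 j) = if i = j then 1 else 0 := by
    intro i j
    rw [hy2']
    show B (sg i) ((Fin.cons π (Fin.append (fun i => (t i : L)) (u : Fin g → L)) :
      Fin (d + g + 1) → L) (sg j)) = _
    rw [hB]
    by_cases h : i = j
    · rw [if_pos h, if_pos (by rw [h])]
    · rw [if_neg h, if_neg fun h' => h (sg_inj h')]
  have hy2b : IsTranscendenceBasis ℂ y2 := by
    have h1 : AlgebraicIndependent ℂ y2 := by
      rw [hy2']
      exact hbas.1.comp sg sg_inj
    apply h1.isTranscendenceBasis_of_lift_trdeg_le_of_finite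
    rw [hn]
    simp
  have hωG := pluri_frame hω hy2b hB2 G
  obtain ⟨D, hD⟩ : ∃ D : Fin (d + (g + 1)) → Derivation ℂ L L,
    D = Fin.append (fun i => G (Fin.castAdd (g + 1) i)) (fun i => (X i).restrictScalars ℂ) := ⟨_, rfl⟩
  have hD1 : ∀ i, D (Fin.castAdd (g + 1) i) = G (Fin.castAdd (g + 1) i) := by
    intro i
    rw [hD, Fin.append_left]
  have hD2 : ∀ i x, D (Fin.natAdd d i) x = X i x := by
    intro i x
    rw [hD, Fin.append_right]
    rfl
  have hz1 : ∀ i, z (Fin.castAdd (g + 1) i) = t i := by intro i; rw [hz, Fin.append_left]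
  have hz2 : ∀ i, z (Fin.natAdd d i) = v i := by intro i; rw [hz, Fin.append_right]
  have hy1 : ∀ i, y2 (Fin.castAdd (g + 1) i) = t i := by intro i; rw [hy2, Fin.append_left]
  have hy3 : ∀ i, y2 (Fin.natAdd d i) = (Fin.cons π (u : Fin g → L) : Fin (g + 1) → L) i := by
    intro i; rw [hy2, Fin.append_right]
  have hXt : ∀ i j, X i (t j : L) = 0 := fun i j => (X i).map_algebraMap (t j)
  have hGt : ∀ i j : Fin d, G (Fin.castAdd (g + 1) i) (t j : L) = (1 : Matrix (Fin d) (Fin d) L) i j := by
    intro i j
    rw [← hz1, hG, Matrix.one_apply]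
    by_cases h : i = j
    · rw [if_pos h, if_pos (by rw [h])]
    · rw [if_neg h, if_neg fun h' => h (Fin.castAdd_injective d (g + 1) h')]
  have hM1 : (Matrix.of fun i l => D i (z l)).det =
      (1 : Matrix (Fin d) (Fin d) L).det * (Matrix.of fun i l => X i (v l)).det := by
    refine Pool.Agent.N133.TB.bd2_det _ _ _ (fun i j => ?_) (fun i j => ?_) (fun i j => ?_)
    · rw [Matrix.of_apply, hD1, hz1, hGt]
    · rw [Matrix.of_apply, hD2, hz1, hXt]
    · rw [Matrix.of_apply, hD2, hz2, Matrix.of_apply]
  have hM2 : (Matrix.of fun i l => D i (y2 l)).det =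
      (1 : Matrix (Fin d) (Fin d) L).det * (Matrix.of fun i l =>
        X i ((Fin.cons π (u : Fin g → L) : Fin (g + 1) → L) l)).det := by
    refine Pool.Agent.N133.TB.bd2_det _ _ _ (fun i j => ?_) (fun i j => ?_) (fun i j => ?_)
    · rw [Matrix.of_apply, hD1, hy1, hGt]
    · rw [Matrix.of_apply, hD2, hy1, hXt]
    · rw [Matrix.of_apply, hD2, hy3, Matrix.of_apply]
  have hchain : (Matrix.of fun i l => D i (y2 l)) =
      (Matrix.of fun i l => D i (z l)) * (Matrix.of fun i l => G i (y2 l)) := by
    ext i b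
    rw [Matrix.mul_apply, Matrix.of_apply]
    exact Pool.Agent.W73.PG.PULL.chain z hzb G hG (D i) (y2 b)
  have hdet : (Matrix.of fun i l => X i (v l)).det * (Matrix.of fun i l => G i (y2 l)).det =
      (Matrix.of fun i l => X i ((Fin.cons π (u : Fin g → L) : Fin (g + 1) → L) l)).det := by
    have h1 := congrArg Matrix.det hchain
    rw [Matrix.det_mul, hM1, hM2, Matrix.det_one, one_mul, one_mul] at h1
    exact h1.symm
  rw [hωG, ← mul_assoc, ← mul_pow, hdet]
  refine P.reg_mul (reg_pow P (det_reg P _ fun i l => ?_) N) (hreg _ hP' _ fun i => hBP _)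
  rw [Matrix.of_apply]
  apply hX i
  refine Fin.cases ?_ (fun l => ?_) l
  · rw [Fin.cons_zero]
    right
    rw [hπ]
    norm_num
  · rw [Fin.cons_succ]
    right
    have h1 := (hu' (MvPolynomial.X l) (MvPolynomial.X_ne_zero l)).2
    rw [MvPolynomial.aeval_X] at h1
    exact h1.ge

end main

open Pool.Agent.N194.VS in
/-- **Easy addition.** -/
theorem easy : SEasy := by
  classical
  intro L _ _ hess n d f E hd hf hGT
  obtain ⟨hn, N, hN, ω, hω, hreg, D0, hD0, hind⟩ := hGT
  have hnd : n = d + f := by
    have h1 := trdeg_add_eq ℂ E (A := L)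
    rw [hd, hf, hn] at h1
    exact_mod_cast h1.symm
  subst hnd
  obtain ⟨t, ht⟩ := exists_fin_basis' (k := ℂ) (K := E) d hd
  obtain ⟨v, hv⟩ := exists_fin_basis' (k := E) (K := L) f hf
  obtain ⟨z, hz⟩ : ∃ z : Fin (d + f) → L, z = Fin.append (fun i => (t i : L)) v := ⟨_, rfl⟩
  have hzi : AlgebraicIndependent ℂ z := by
    rw [hz]
    exact append_indep' E ht.1 hv.1
  have basis_of : ∀ y : Fin (d + f) → L, AlgebraicIndependent ℂ y → IsTranscendenceBasis ℂ y := by
    intro y hy
    apply hy.isTranscendenceBasis_of_lift_trdeg_le_of_finite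
    rw [hn]
    simp
  have hzb := basis_of z hzi
  obtain ⟨G, hG⟩ := Pool.Agent.W636.PG.exists_duals ℂ L (d + f) z hzb
  have hΔ : ∀ j D, ω j D = (Matrix.of fun i j => D i (z j)).det ^ N * ω j G :=
    fun j D => pluri_frame (hω j) hzb hG D
  have hc0 : ω 0 G ≠ 0 := fun h => hD0 (by rw [hΔ 0 D0, h, mul_zero])
  have hdet0 : (Matrix.of fun i j => D0 i (z j)).det ^ N ≠ 0 := fun h =>
    hD0 (by rw [hΔ 0 D0, h, zero_mul])
  have hr : (fun i : Fin (d + f) => ω i.succ D0 / ω 0 D0) = fun i => ω i.succ G / ω 0 G := by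
    funext i
    rw [hΔ i.succ D0, hΔ 0 D0, mul_div_mul_left _ _ hdet0]
  rw [hr] at hind
  obtain ⟨κ, hκ⟩ := exists_sub E (basis_of _ hind) hf
  have hηreg : ∀ j (P : Place E L), Divisorial f P → RegAt P
      (fun X : Fin f → Derivation E L L => (Matrix.of fun i l => X i (v l)).det ^ N * ω j G) := by
    intro j P hP X hX
    rcases f with _ | g
    · exfalso
      have halg : Algebra.IsAlgebraic E L := by
        rw [← trdeg_eq_zero_iff]
        exact_mod_cast hf
      obtain ⟨s, hs0, hs⟩ := P.surj
      have h1 := ord_eq_zero_of_alg (K0 := E) (K1 := L) (K2 := L) P (fun f => by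
        by_cases hf : f = 0
        · rw [hf, map_zero, P.ord_zero]
        · exact P.ord_const hf) s
      rw [Algebra.algebraMap_self, RingHom.id_apply, hs] at h1
      norm_num at h1
    · exact reg_key E hess hn ht.1 hz hzb hG (hω j) (fun P' h => hreg P' h j) P hP X hX
  refine ⟨hf, N, hN, fun j X => (Matrix.of fun i l => X i (v l)).det ^ N *
    ω ((Fin.cons 0 fun l => (κ l).succ : Fin (f + 1) → Fin (d + f + 1)) j) G, ?_, ?_, ?_⟩
  · intro j A X
    have h1 : (Matrix.of fun i l => (∑ j', A i j' • X j') (v l)) =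
        A * Matrix.of (fun i l => X i (v l)) := by
      ext i l
      rw [Matrix.mul_apply, Matrix.of_apply]
      have h0 : ∀ s : Finset (Fin f), (∑ j ∈ s, A i j • X j) (v l) = ∑ j ∈ s, A i j * X j (v l) := by
        intro s
        induction s using Finset.induction_on with
        | empty => simp
        | insert b s hb ih =>
          rw [Finset.sum_insert hb, Finset.sum_insert hb, Derivation.add_apply, ih,
            Derivation.smul_apply, smul_eq_mul]
      exact h0 _
    show (Matrix.of fun i l => (∑ j', A i j' • X j') (v l)).det ^ N * _ = _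
    rw [h1, Matrix.det_mul, mul_pow, mul_assoc]
  · intro P hP j
    exact hηreg _ P hP
  · obtain ⟨F, hF⟩ := Pool.Agent.W636.PG.exists_duals E L f v hv
    have hF1 : (Matrix.of fun i l => F i (v l)) = (1 : Matrix (Fin f) (Fin f) L) := by
      ext i l
      rw [Matrix.of_apply, hF, Matrix.one_apply]
    refine ⟨F, ?_, ?_⟩
    · show (Matrix.of fun i l => F i (v l)).det ^ N * ω 0 G ≠ 0
      rw [hF1, Matrix.det_one, one_pow, one_mul]
      exact hc0
    · have h2 : (fun i : Fin f => (Matrix.of fun i l => F i (v l)).det ^ N *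
          ω ((Fin.cons 0 fun l => (κ l).succ : Fin (f + 1) → Fin (d + f + 1)) i.succ) G /
          ((Matrix.of fun i l => F i (v l)).det ^ N *
          ω ((Fin.cons 0 fun l => (κ l).succ : Fin (f + 1) → Fin (d + f + 1)) 0) G)) =
          fun l => ω (κ l).succ G / ω 0 G := by
        funext l
        rw [hF1, Matrix.det_one, one_pow, one_mul, one_mul, Fin.cons_succ, Fin.cons_zero]
      have h3 := hκ
      rw [← h2] at h3
      exact h3

end Pool.Agent.N169.VS
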